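import Pool.Agent.Work.MP_0863b8_nt.G.All

/-!
# Inhomogeneous Duffin-Schaeffer theorem up to an arbitrarily small power of `log (1 / Φ)`

Let `δ` be real, `ε > 0` and let `0 ≤ Ψ ≤ Φ` be such that `Ψ` satisfies (H1), (H2) and, for all
large `n`, either `Ψ n ≤ exp (- 1000 (log log n)^2)` or
`Ψ n ≤ Φ n / (log (3 + 1 / Φ n))^ε`.  Then almost every `β` satisfies `‖n β - δ‖ < Φ n` for
infinitely many `n`.  So there is no loss at all for quickly decaying functions, and in the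
remaining range, where `log (1 / Φ n)` is at most `1000 (log log n)^2`, the loss is at most a
factor `(log log n)^(2 ε + o(1))`, for every `ε > 0`.
-/

set_option autoImplicit false

namespace Pool.Agent.Results.MP_0863b8_nt.ExtraDivergence

open MeasureTheory Filter

/-- distance to the nearest integer -/
noncomputable def dist (x : ℝ) : ℝ := |x - round x|

/-- condition (H1) -/
def H1 (Ψ : ℕ → ℝ) : Prop :=
  Tendsto (fun N : ℕ => ∑ n ∈ Finset.Icc 1 N, (Nat.totient n : ℝ) / n * Ψ n) atTop atTop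

/-- condition (H2) -/
def H2 (Ψ : ℕ → ℝ) : Prop :=
  0 < limsup (fun N : ℕ => (∑ n ∈ Finset.Icc 1 N, (Nat.totient n : ℝ) / n * Ψ n) *
    (∑ n ∈ Finset.Icc 1 N, Ψ n)⁻¹) atTop

/-- For every real `δ` and every `ε > 0`: if `0 ≤ Ψ ≤ Φ`, `Ψ` satisfies (H1), (H2) and for all
large `n` either `Ψ n ≤ exp (- 1000 (log log n)^2)` or `Ψ n ≤ Φ n / (log (3 + 1 / Φ n))^ε`, then
for almost every real `β` there are infinitely many `n ≥ 1` with `‖n β - δ‖ < Φ n`. -/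
theorem result (δ : ℝ) (Φ Ψ : ℕ → ℝ) (ε : ℝ) (hε : 0 < ε) (h0 : ∀ n, 0 ≤ Ψ n)
    (hle : ∀ n, Ψ n ≤ Φ n) (h1 : H1 Ψ) (h2 : H2 Ψ)
    (hd : ∀ᶠ n : ℕ in atTop, Ψ n ≤ Real.exp (-(1000 * (Real.log (Real.log n)) ^ 2)) ∨
      Ψ n ≤ Φ n / (Real.log (3 + 1 / Φ n)) ^ ε) :
    ∀ᵐ β : ℝ, {n : ℕ | 1 ≤ n ∧ dist (n * β - δ) < Φ n}.Infinite :=
  MP_0863b8.G.finalStmt δ Φ Ψ ε hε h0 hle h1 h2 hd

end Pool.Agent.Results.MP_0863b8_nt.ExtraDivergence
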