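import Pool.Agent.Work.MP_0863b8_nt.Rat

/-!
# Inhomogeneous Duffin-Schaeffer theorem for rational shifts

For every rational `δ` and every `Φ` satisfying (H1) and (H2), almost every `β` satisfies
`‖n β - δ‖ < Φ n` for infinitely many `n`.
-/

set_option autoImplicit false

namespace Pool.Agent.Results.MP_0863b8_nt.RationalShift

open MeasureTheory Filter

/-- distance to the nearest integer -/
noncomputable def dist (x : ℝ) : ℝ := |x - round x|

/-- condition (H1) -/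
def H1 (Φ : ℕ → ℝ) : Prop :=
  Tendsto (fun N : ℕ => ∑ n ∈ Finset.Icc 1 N, (Nat.totient n : ℝ) / n * Φ n) atTop atTop

/-- condition (H2) -/
def H2 (Φ : ℕ → ℝ) : Prop :=
  0 < limsup (fun N : ℕ => (∑ n ∈ Finset.Icc 1 N, (Nat.totient n : ℝ) / n * Φ n) *
    (∑ n ∈ Finset.Icc 1 N, Φ n)⁻¹) atTop

/-- Question 1 holds for every rational `δ` (and every `Φ` with (H1) and (H2)). -/
theorem result (δ : ℚ) (Φ : ℕ → ℝ) (h0 : ∀ n, 0 ≤ Φ n) (h1 : H1 Φ) (h2 : H2 Φ) :
    ∀ᵐ β : ℝ, {n : ℕ | 1 ≤ n ∧ dist (n * β - δ) < Φ n}.Infinite := by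
  have hg : Int.gcd ((δ.den : ℕ) : ℤ) δ.num = 1 := by
    have := δ.reduced
    rw [Int.gcd_comm, Int.gcd, Int.natAbs_natCast]
    exact this
  have h := MP_0863b8.main_rat δ.den δ.num δ.pos hg Φ h0 h1 h2
  have e : ((δ.num : ℝ) / (δ.den : ℝ)) = (δ : ℝ) := by
    exact_mod_cast Rat.num_div_den δ
  have h' : MP_0863b8.Concl (δ : ℝ) Φ := by
    rw [← e]
    exact h
  exact h'

end Pool.Agent.Results.MP_0863b8_nt.RationalShift
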