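import Pool.Agent.Work.MP_0863b8_nt.Bd.B02

/-!
# Inhomogeneous Duffin-Schaeffer theorem when the levels of `Φ n / n` are spread out

For every real `δ` and every `Φ` with a minorant satisfying (H1), (H2) and a condition on the
dyadic levels of `Ψ n / n` (true for instance when `Ψ` is a nonincreasing function restricted to
an arbitrary set, and when `Ψ n = O(1/n)`), almost every `β` satisfies `‖n β - δ‖ < Φ n` for
infinitely many `n`.  No hypothesis on `δ`.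
-/

set_option autoImplicit false

namespace Pool.Agent.Results.MP_0863b8_nt.SpreadLevels

open MeasureTheory Filter

/-- distance to the nearest integer -/
noncomputable def dist (x : ℝ) : ℝ := |x - round x|

/-- condition (H1) -/
def H1 (Ψ : ℕ → ℝ) : Prop :=
  Tendsto (fun N : ℕ => ∑ n ∈ Finset.Icc 1 N, (Nat.totient n : ℝ) / n * Ψ n) atTop atTop

/-- condition (H2) -/
def H2 (Ψ : ℕ → ℝ) : Prop :=
  0 < limsup (fun N : ℕ => (∑ n ∈ Finset.Icc 1 N, (Nat.totient n : ℝ) / n * Ψ n) *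
    (∑ n ∈ Finset.Icc 1 N, Ψ n)⁻¹) atTop

open Classical in
/-- mass of `Ψ` on the `n` of the dyadic block `[2^s, 2^(s+1))` with
`2^(-(k+1)) < Ψ n / n ≤ 2^(-k)` -/
noncomputable def mass (Ψ : ℕ → ℝ) (k : ℤ) (s : ℕ) : ℝ :=
  ∑ n ∈ (Finset.Ico (2 ^ s) (2 ^ (s + 1))).filter
    (fun n : ℕ => (1/2 : ℝ) ^ (k + 1) < Ψ n / n ∧ Ψ n / n ≤ (1/2 : ℝ) ^ k), Ψ n

/-- every dyadic level of `Ψ n / n` has its mass spread over few dyadic blocks: the seventh roots
of the masses, capped at `1`, have a sum bounded independently of the level -/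
def Spread (Ψ : ℕ → ℝ) : Prop :=
  ∃ C : ℝ, ∀ (k : ℤ) (T : Finset ℕ), ∑ s ∈ T, (min 1 (mass Ψ k s)) ^ ((1:ℝ)/7) ≤ C

/-- For every real `δ`: if `0 ≤ Ψ ≤ Φ` and `Ψ` satisfies (H1), (H2) and `Spread`, then for almost
every real `β` there are infinitely many `n ≥ 1` with `‖n β - δ‖ < Φ n`. -/
theorem result (δ : ℝ) (Φ Ψ : ℕ → ℝ) (h0 : ∀ n, 0 ≤ Ψ n) (hle : ∀ n, Ψ n ≤ Φ n)
    (h1 : H1 Ψ) (h2 : H2 Ψ) (hs : Spread Ψ) :
    ∀ᵐ β : ℝ, {n : ℕ | 1 ≤ n ∧ dist (n * β - δ) < Φ n}.Infinite := by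
  have h := MP_0863b8.mainStmt δ Ψ h0 h1 h2 hs
  filter_upwards [h] with β hβ
  refine hβ.mono ?_
  rintro n ⟨hn, hlt⟩
  exact ⟨hn, lt_of_lt_of_le hlt (hle n)⟩

end Pool.Agent.Results.MP_0863b8_nt.SpreadLevels
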